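import Pool.Agent.X329.Leavitt.Final

/-!
# The Leavitt path algebra of the Kronecker square does not determine that of the quiver

Let `Q(p, n)` be the quiver with two vertices `u, v`, `p` arrows `u → v` and `n` loops at `v`. For every
field `K` of characteristic zero the Leavitt path algebras of the Kronecker squares of `Q(5, 10)` and
`Q(8, 10)` are isomorphic, but the Leavitt path algebras of `Q(5, 10)` and `Q(8, 10)` are not.

The proof: `L(Q(p, n))` is the algebra of the `(p + 1) × (p + 1)` matrices over the Leavitt algebra `L_n`,
and the algebra of the Kronecker square is the algebra of `D × D` matrices over `L_{n²}`,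
`D = (p + n)² - n² + 1`; for `n = 10` and `p = 5, 8` one finds `D = 126` and `D = 225 = 126 + 99`, and
matrix sizes which differ by `N - 1` give isomorphic matrix algebras over `L_N`. In `M_9(L_10)` the unit
is equivalent to two copies of itself. In `M_6(L_10)` it is not: the operators on the space of words
which represent the algebra modulo operators of finite rank have a regularised trace, and the
integrality of the index `tr(1 - YX) - tr(1 - XY)` gives `6 ∈ 9 ℤ`.
-/

set_option autoImplicit false

namespace Pool.Agent.Results.MP_40e4cd_al.SquaresDoNotDetermine

open Pool.Agent.X329.Leavitt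

/-- **The answer to the question is no.** Let `K` be a field of characteristic zero, and let `Q(p, n)` be
the quiver with two vertices, `p` arrows from the first to the second one and `n` loops at the second
one. The Leavitt path algebras of the Kronecker squares of `Q(5, 10)` and `Q(8, 10)` are isomorphic
`K`-algebras, the Leavitt path algebras of `Q(5, 10)` and `Q(8, 10)` are not isomorphic. -/
theorem result (K : Type) [Field K] [CharZero K] :
    Nonempty (LPA K (Qpn 5 10).sq ≃ₐ[K] LPA K (Qpn 8 10).sq) ∧
      ¬ Nonempty (LPA K (Qpn 5 10) ≃ₐ[K] LPA K (Qpn 8 10)) :=
  ⟨squares_iso, not_iso⟩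

end Pool.Agent.Results.MP_40e4cd_al.SquaresDoNotDetermine
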